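import Pool.Agent.H491Z.SosTrue
import Pool.Agent.H491Z.SosFalse

/-! For the 3-cube and the edges `e = 01`, `f = 26`, no choice of signs gives the conjectured sum
of squares form of the spanning forest Rayleigh difference, under either reading of `A(S)`. -/

namespace Pool.Agent.Results.MP_b10ab5_co.ACubeNotSOS

open Pool.Agent.H491Z.Sos

theorem result : ∀ uni : Bool, ¬ IsSOS cubeSrc cubeTgt uni 0 6 := by
  intro uni
  cases uni
  exacts [not_sos_false, not_sos_true]

end Pool.Agent.Results.MP_b10ab5_co.ACubeNotSOS
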